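import Pool.Agent.Helper58.SF.StB

/-!
# Project SF, module HTF: moving a cycle along the flow
-/

set_option autoImplicit false

namespace Pool.Agent.Helper16.SF

open Set Topology Pool.Agent.Helper13.TR Pool.Agent.Helper58.SF
open Pool.Agent.Helper13.TW (IsArc Spl IsSCC dch Chn Splt GT CSy MP Val LR MCell StARB StARX StSCL
  StUAR StINF StLIN StAC1 StSDM)

private lemma push_id {X : Type} [TopologicalSpace X] (n : ℕ) (c : Ch X n) :
    push (ContinuousMap.id X) n c = c := by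
  unfold push
  have h : (fun σ : Sx X n => (ContinuousMap.id X).comp σ) = id := by
    funext σ
    exact ContinuousMap.id_comp σ
  rw [h]
  exact Finsupp.mapDomain_id

private lemma level_pos {s u : ℝ} (hs : 0 < s) (h0 : 0 ≤ u) (h1 : u ≤ 1) : 0 < (1 - u) + u * s := by
  rcases h0.eq_or_lt with h | h
  · rw [← h]
    norm_num
  · have := mul_pos h hs
    linarith

/-- The homotopy from the identity to `R s`. -/
private noncomputable def hmt {P : Type} [TopologicalSpace P] {r : P → ℝ} {R : ℝ → P → P}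
    (hF : Flow P r R) {s : ℝ} (hs : 0 < s) (hR : Continuous (R s)) :
    (ContinuousMap.id P).Homotopy ⟨R s, hR⟩ where
  toFun p := R ((1 - (p.1 : ℝ)) + (p.1 : ℝ) * s) p.2
  continuous_toFun := by
    have h1 : Continuous fun p : unitInterval × P => (((1 - (p.1 : ℝ)) + (p.1 : ℝ) * s), p.2) := by
      fun_prop
    exact hF.Rc.comp_continuous h1 fun p => level_pos hs p.1.2.1 p.1.2.2
  map_zero_left y := by
    show R ((1 - ((0 : unitInterval) : ℝ)) + ((0 : unitInterval) : ℝ) * s) y = y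
    apply hF.Rid
    have := hF.lt y
    have h0 : ((0 : unitInterval) : ℝ) = 0 := rfl
    rw [h0]
    linarith
  map_one_left y := by
    show R ((1 - ((1 : unitInterval) : ℝ)) + ((1 : unitInterval) : ℝ) * s) y = R s y
    congr 1
    simp

theorem hHTF : StOMB → StPRI → StMON → StHTF := by
  intro omb pri mon P _ r R dg hGB s hR A z hs hz hbz
  have hF : Flow P r R := hGB.box.toFlow
  obtain ⟨Q, -, hQ1, hQ2⟩ := pri P P (ContinuousMap.id P) ⟨R s, hR⟩ (hmt hF hs hR)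
  have hkey : Q 1 z ∈ cin {y' : P | ∃ y ∈ A, ∃ σ : ℝ, s ≤ σ ∧ y' = R σ y} 2 := by
    refine (mon P).1 _ _ 2 ?_ (hQ2 A 1 z hz)
    rintro y' ⟨y, hy, t, rfl⟩
    have ht0 : (0 : ℝ) ≤ (t : ℝ) := t.2.1
    have ht1 : (t : ℝ) ≤ 1 := t.2.2
    have e : (hmt hF hs hR) (t, y) = R ((1 - (t : ℝ)) + (t : ℝ) * s) y := rfl
    rcases le_total s 1 with h1 | h1
    · refine ⟨y, hy, (1 - (t : ℝ)) + (t : ℝ) * s, ?_, e⟩
      nlinarith
    · refine ⟨y, hy, s, le_rfl, ?_⟩
      rw [e, hF.Rid s y ((hF.lt y).le.trans h1)]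
      apply hF.Rid
      have := hF.lt y
      nlinarith
  have hbd : bd 1 (Q 1 z) = push ⟨R s, hR⟩ 1 z - z := by
    have := hQ1 0 z
    rw [hbz, map_zero, add_zero, push_id] at this
    exact this
  refine ⟨⟨Q 1 z, hkey, hbd⟩, ?_⟩
  rintro x ⟨e, he⟩ hx
  obtain ⟨-, o2, -, o4, -⟩ := omb P r R dg hGB
  have hA : A ⊆ (Ln r R x)ᶜ := by
    intro y hy
    have h1 := hx y hy (max s 1) (le_max_left _ _)
    rwa [hF.Rid _ y ((hF.lt y).le.trans (le_max_right _ _))] at h1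
  have hQc : Q 1 z ∈ cin (Ln r R x)ᶜ 2 := by
    refine (mon P).1 _ _ 2 ?_ hkey
    rintro _ ⟨y, hy, σ, hσ, rfl⟩
    exact hx y hy σ hσ
  have h1 : bd 1 e ∈ cin (Ln r R x)ᶜ 1 := by
    rw [he]
    exact (mon P).1 _ _ 1 hA hz
  have h2 : bd 1 (Q 1 z) ∈ cin (Ln r R x)ᶜ 1 := (mon P).2.2.2.1 _ 1 _ hQc
  have h3 := (o2 e (Q 1 z) x h1 h2).1
  rw [o4 (Q 1 z) x hQc, add_zero, he, hbd, add_sub_cancel] at h3
  exact h3

end Pool.Agent.Helper16.SF
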